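import Pool.Agent.H55.CSel
import Pool.Agent.H55.PPt
import Pool.Agent.H55.Nd1

open Set Filter Topology Pool.Agent.H55 Pool.Agent.H55.CSel Pool.Agent.H55.PPt
open Cardinal hiding univ
open Pool.Agent.H55.Mark (W Iio_c bdd)

namespace Pool.Agent.Results.MP_b7496a_gt.UnderCH

@[reducible] def top (p : Filter ℕ) : TopologicalSpace (Option ℕ) where
  IsOpen S := none ∈ S → some ⁻¹' S ∈ p
  isOpen_univ := fun _ => univ_mem
  isOpen_inter := fun _ _ hS hT hn => inter_mem (hS hn.1) (hT hn.2)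
  isOpen_sUnion := fun _ hs ⟨S, h1, h2⟩ =>
    mem_of_superset (hs S h1 h2) fun _ hn => ⟨S, h1, hn⟩

lemma t1 {p : Filter ℕ} (hp : p ≤ cofinite) : @T1Space _ (top p) := by
  let _ := top p
  refine ⟨fun y => ⟨fun hn => hp ?_⟩⟩
  exact ((finite_singleton y).preimage (Option.some_injective _).injOn).compl_mem_cofinite

lemma reg {p : Filter ℕ} (hp : p ≤ cofinite) : @RegularSpace _ (top p) := by
  let _ := top p
  have := t1 hp
  refine RegularSpace.of_exists_mem_nhds_isClosed_subset fun y s hs => ?_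
  rcases y with _ | n
  · exact ⟨s, hs, ⟨fun hn => absurd (mem_of_mem_nhds hs) hn⟩, Subset.rfl⟩
  · refine ⟨{some n}, IsOpen.mem_nhds (fun hn => by simp at hn) rfl, isClosed_singleton, ?_⟩
    simpa using mem_of_mem_nhds hs

def Fr (A : Set ℕ) : Filter ℕ := cofinite ⊓ 𝓟 A

lemma fc (A : Set ℕ) (x : Option ℕ) : @FC _ (top (Fr A)) univ x := by
  let _ := top (Fr A)
  rcases x with _ | n
  · refine ⟨fun k => insert none (some '' (A ∩ Ici k)), fun k => ⟨fun _ => ?_, Or.inl rfl⟩,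
      fun a b hab => insert_subset_insert (image_mono (inter_subset_inter_right _
        (Ici_subset_Ici.2 hab))), fun V hV => ?_⟩
    · refine (le_iff _ _).2 ((finite_Iio k).subset fun n hn => ?_)
      by_contra h
      exact hn.2 (Or.inr ⟨n, ⟨hn.1, mem_Ici.2 (not_lt.1 fun h' => h (mem_Iio.2 h'))⟩, rfl⟩)
    · obtain ⟨O, h1, h2, h3⟩ := mem_nhds_iff.1 hV
      obtain ⟨k, hk⟩ := ((le_iff _ _).1 (h2 h3)).bddAbove
      refine ⟨k + 1, ?_⟩
      rintro _ ⟨-, rfl | ⟨n, ⟨h4, h5⟩, rfl⟩⟩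
      · exact h1 h3
      · by_contra h6
        have h7 : n ≤ k := hk ⟨h4, fun h => h6 (h1 h)⟩
        have h8 : k + 1 ≤ n := h5
        omega
  · refine ⟨fun _ => {some n}, fun _ => ⟨fun hn => by simp at hn, rfl⟩, antitone_const,
      fun V hV => ⟨0, ?_⟩⟩
    simpa using mem_of_mem_nhds hV

lemma sep {ι : Type} [Countable ι] (S T : ι → Set ℕ) (h : ∀ i j, (S i \ T j).Finite) :
    ∃ C : Set ℕ, (∀ i, (S i \ C).Finite) ∧ ∀ j, (C \ T j).Finite := by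
  obtain ⟨e, he⟩ := Countable.exists_injective_nat ι
  refine ⟨⋃ i, (S i ∩ ⋂ j ∈ e ⁻¹' Iic (e i), T j), fun i => ?_, fun j => ?_⟩
  · refine (((finite_Iic (e i)).preimage he.injOn).biUnion fun j _ => h i j).subset ?_
    rintro x ⟨h1, h2⟩
    by_contra h3
    refine h2 (mem_iUnion.2 ⟨i, h1, mem_iInter₂.2 fun j hj => ?_⟩)
    by_contra h4
    exact h3 (mem_biUnion hj ⟨h1, h4⟩)
  · refine (((finite_Iio (e j)).preimage he.injOn).biUnion fun i _ => h i j).subset ?_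
    rintro x ⟨h1, h2⟩
    obtain ⟨i, h3, h4⟩ := mem_iUnion.1 h1
    refine mem_biUnion (x := i) ?_ ⟨h3, h2⟩
    by_contra h5
    have h6 : e j ≤ e i := not_lt.1 fun h' => h5 (mem_Iio.2 h')
    exact h2 (mem_iInter₂.1 h4 j h6)

def Good (E : W → ℚ → Set (Option ℕ)) (δ : W) (a : W → Set ℕ × Set ℕ) (x : Set ℕ × Set ℕ) :
    Prop :=
  x.2 ⊆ x.1 ∧ (x.1 \ x.2).Infinite ∧
    (∀ i, i < δ → (x.1 \ (a i).1).Finite ∧ ((a i).2 \ x.2).Finite ∧ ((a i).1 \ x.1).Infinite) ∧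
    (@LSC _ _ _ (top (Fr x.1)) (E δ) → (∀ y, (E δ y).Nonempty) →
      ∃ f : ℚ → Option ℕ, @Continuous _ _ _ (top (Fr x.2)) f ∧ ∀ y, f y ∈ E δ y)

lemma cross {E a} {i j : W} (hi : Good E i a (a i)) (hj : Good E j a (a j)) :
    ((a i).2 \ (a j).1).Finite := by
  rcases lt_trichotomy i j with h | rfl | h
  · exact (hj.2.2.1 i h).2.1.subset (sdiff_subset_sdiff_right hj.1)
  · rw [sdiff_eq_empty.2 hi.1]
    exact finite_empty
  · exact (hi.2.2.1 j h).1.subset (sdiff_subset_sdiff_left hi.1)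

lemma build (E : W → ℚ → Set (Option ℕ)) : ∃ a, ∀ δ, Good E δ a (a δ) := by
  refine Nd.rec_e (W := W) id (Good E) (fun t f g x h k => ⟨k.1, k.2.1, fun i hi => ?_, k.2.2.2⟩)
    fun δ a ih => ?_
  · rw [← h i hi]
    exact k.2.2.1 i hi
  have := (Iio_c δ).to_subtype
  obtain ⟨R, r1, r2⟩ := pseudo (fun i : Iio δ => (a i).1 \ (a i).2) (fun i => (ih i i.2).2.1)
    fun i j hij => by
      obtain ⟨h1, h2, -⟩ := (ih j j.2).2.2.1 i hij
      refine (h1.union h2).subset ?_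
      rintro x ⟨⟨h3, h4⟩, h5⟩
      by_cases h6 : x ∈ (a i).1
      · refine Or.inr ⟨?_, h4⟩
        by_contra h7
        exact h5 ⟨h6, h7⟩
      · exact Or.inl ⟨h3, h6⟩
  obtain ⟨C, c1, c2⟩ := sep (fun i : Iio δ => (a i).2) (fun i => (a i).1)
    fun i j => cross (ih i i.2) (ih j j.2)
  obtain ⟨A, B, a1, b1, a2, b2, hAB⟩ := split r1
  obtain ⟨B1, B2, d1, d2, d3, d4, hB⟩ := split b2
  have key : ∀ T S : Set ℕ, T ⊆ (C \ R) ∪ B → C \ R ⊆ S → ∀ i, i < δ →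
      (T \ (a i).1).Finite ∧ ((a i).2 \ S).Finite ∧ ((a i).1 \ T).Infinite := by
    intro T S h1 h2 i hi
    refine ⟨((c2 ⟨i, hi⟩).union (r2 ⟨i, hi⟩)).subset ?_,
      ((c1 ⟨i, hi⟩).union (r2 ⟨i, hi⟩)).subset ?_, (a2.sdiff (r2 ⟨i, hi⟩)).mono ?_⟩
    · rintro x ⟨h3, h4⟩
      rcases h1 h3 with h5 | h5
      · exact Or.inl ⟨h5.1, h4⟩
      · exact Or.inr ⟨b1 h5, fun h6 => h4 h6.1⟩
    · rintro x ⟨h3, h4⟩
      by_cases h5 : x ∈ R
      · exact Or.inr ⟨h5, fun h6 => h6.2 h3⟩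
      · exact Or.inl ⟨h3, fun h6 => h4 (h2 ⟨h6, h5⟩)⟩
    · rintro x ⟨h3, h4⟩
      refine ⟨?_, fun h5 => ?_⟩
      · by_contra h5
        exact h4 ⟨a1 h3, fun h6 => h5 h6.1⟩
      · rcases h1 h5 with h6 | h6
        · exact h6.2 (a1 h3)
        · exact Set.disjoint_left.1 hAB h3 h6
  by_cases hc : @LSC _ _ _ (top (Fr ((C \ R) ∪ B1))) (E δ) ∧ ∀ y, (E δ y).Nonempty
  · refine ⟨((C \ R) ∪ B, (C \ R) ∪ B1), union_subset_union_right _ d1, d4.mono ?_,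
      key _ _ Subset.rfl subset_union_left, fun _ _ => ?_⟩
    · intro x hx
      refine ⟨Or.inr (d2 hx), ?_⟩
      rintro (h | h)
      · exact h.2 (b1 (d2 hx))
      · exact Set.disjoint_left.1 hB h hx
    · let _ := top (Fr ((C \ R) ∪ B1))
      exact michael hc.1 hc.2 (fun _ => subset_univ _) fun x _ => fc _ x
  · refine ⟨((C \ R) ∪ B1, C \ R), subset_union_left, d3.mono ?_,
      key _ _ (union_subset_union_right _ d1) Subset.rfl, fun h1 h2 => absurd ⟨h1, h2⟩ hc⟩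
    intro x hx
    exact ⟨Or.inr hx, fun h => h.2 (b1 (d1 hx))⟩

theorem result (CH : (2 : Cardinal.{0}) ^ ℵ₀ = ℵ_ 1) :
    ∃ (X : Type) (_ : TopologicalSpace X), T1Space X ∧ RegularSpace X ∧ Countable X ∧
      Selective ℚ X ∧ StronglySelective ℚ X ∧ ¬ CSelective X := by
  obtain ⟨E⟩ : Nonempty (W ≃ (ℚ → Set (Option ℕ))) :=
    Cardinal.eq.1 (by rw [StepTree.mk_W, ← CH]; simp)
  obtain ⟨a, ha⟩ := build E
  have hanti : Antitone fun i => Fr (a i).1 := antitone_iff_forall_lt.2 fun i j hij =>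
    le_inf inf_le_left (le_principal_iff.2 ((le_iff _ _).2 ((ha j).2.2.1 i hij).1))
  let p : Filter ℕ := ⨅ i, Fr (a i).1
  have hp : ∀ U, U ∈ p ↔ ∃ i, ((a i).1 \ U).Finite := fun U => by
    rw [mem_iInf_of_directed hanti.directed_ge]
    exact exists_congr fun i => le_iff _ _
  have hpc : p ≤ cofinite := (iInf_le _ (Classical.arbitrary W)).trans inf_le_left
  have hs : @StronglySelective ℚ _ _ (top p) := by
    intro φ h1 h2
    obtain ⟨δ, rfl⟩ := E.surjective φ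
    obtain ⟨f, hf, hf'⟩ := (ha δ).2.2.2 (fun U hU => h1 U fun hn =>
      (hp _).2 ⟨δ, (le_iff _ _).1 (hU hn)⟩) h2
    refine ⟨f, @continuous_def _ _ _ (top p) _ |>.2 fun U hU => ?_, hf'⟩
    refine (@continuous_def _ _ _ (top (Fr (a δ).2)) _).1 hf U fun hn => ?_
    obtain ⟨i, hi⟩ := (hp _).1 (hU hn)
    exact (le_iff _ _).2 (fin_trans (cross (ha δ) (ha i)) hi)
  refine ⟨Option ℕ, top p, t1 hpc, reg hpc, inferInstance,
    fun φ h1 h2 => hs φ h1 fun y => (h2 y).1, hs, fun h => ?_⟩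
  let _ := top p
  have := t1 hpc
  obtain ⟨U, hU, -, hU'⟩ := fc_of_csel h countable_univ none
  choose i hi using fun k => (hp _).1 ((hU k).1 (hU k).2)
  obtain ⟨b, hb⟩ := bdd (countable_range i)
  obtain ⟨c, hc⟩ := bdd (countable_singleton b)
  obtain ⟨k, hk⟩ := hU' (insert none (some '' (a c).1)) (IsOpen.mem_nhds (fun _ =>
    (hp _).2 ⟨c, finite_empty.subset fun n hn => hn.2 (Or.inr ⟨n, hn.1, rfl⟩)⟩) (Or.inl rfl))
  refine ((ha c).2.2.1 b (hc b rfl)).2.2 ((fin_trans ((ha b).2.2.1 _ (hb _ ⟨k, rfl⟩)).1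
    (hi k)).subset (sdiff_subset_sdiff_right fun n hn => ?_))
  simpa using hk ⟨trivial, hn⟩

end Pool.Agent.Results.MP_b7496a_gt.UnderCH
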